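import Mathlib

set_option autoImplicit false

namespace Pool.Agent.Results.MP_493890_gt.Yes

open Set Filter Topology

/-- functionally closed -/
def FClosed {X : Type} [TopologicalSpace X] (A : Set X) : Prop :=
  ∃ f : X → unitInterval, Continuous f ∧ A = f ⁻¹' {0}

/-- functionally open -/
def FOpen {X : Type} [TopologicalSpace X] (A : Set X) : Prop :=
  ∃ f : X → unitInterval, Continuous f ∧ A = f ⁻¹' Ioc 0 1

/-- functionally F-sigma -/
def FFs {X : Type} [TopologicalSpace X] (A : Set X) : Prop :=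
  ∃ Z : ℕ → Set X, (∀ n, FClosed (Z n)) ∧ A = ⋃ n, Z n

/-- functionally G-delta -/
def FGd {X : Type} [TopologicalSpace X] (A : Set X) : Prop :=
  ∃ G : ℕ → Set X, (∀ n, FOpen (G n)) ∧ A = ⋂ n, G n

/-- `E` is 1-embedded in `X` -/
def OneEmb {X : Type} [TopologicalSpace X] (E : Set X) : Prop :=
  (∀ A : Set E, FFs A → ∃ B : Set X, FFs B ∧ A = (Subtype.val : E → X) ⁻¹' B) ∧
  (∀ A : Set E, FGd A → ∃ B : Set X, FGd B ∧ A = (Subtype.val : E → X) ⁻¹' B)

/-- perfectly normal: normal, and every closed set is a G-delta -/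
def PerfNormal (X : Type) [TopologicalSpace X] : Prop :=
  NormalSpace X ∧ ∀ F : Set X, IsClosed F → IsGδ F

theorem zs {X : Type} [TopologicalSpace X] (C : ℕ → Set X) (hC : ∀ n, IsClopen (C n)) :
    FClosed (⋂ n, C n) := by
  classical
  let _ : MetricSpace (ℕ → Bool) := TopologicalSpace.metrizableSpaceMetric _
  let g : X → ℕ → Bool := fun x n => (C n).boolIndicator x
  have hg : Continuous g := continuous_pi fun n =>
    (continuous_boolIndicator_iff_isClopen _).2 (hC n)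
  refine ⟨fun x => ⟨min (dist (g x) fun _ => true) 1, le_min dist_nonneg zero_le_one,
    min_le_right _ _⟩, ((hg.dist continuous_const).min continuous_const).subtype_mk _, ?_⟩
  ext x
  simp only [mem_iInter, mem_preimage, mem_singleton_iff, Subtype.ext_iff, Icc.coe_zero]
  rw [min_eq_iff]
  simp only [dist_eq_zero, one_ne_zero, false_and, or_false, funext_iff, g,
    ← Set.mem_iff_boolIndicator]
  refine ⟨fun h => ⟨h, ?_⟩, fun h => h.1⟩
  rw [dist_eq_zero.2 (funext fun n => (Set.mem_iff_boolIndicator _ _).1 (h n))]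
  exact zero_le_one

theorem ffs {X ι : Type} [TopologicalSpace X] [Countable ι] [Nonempty ι] (Z : ι → Set X)
    (hZ : ∀ i, FClosed (Z i)) : FFs (⋃ i, Z i) := by
  obtain ⟨e, he⟩ := exists_surjective_nat ι
  exact ⟨fun n => Z (e n), fun n => hZ _, (he.iUnion_comp Z).symm⟩

theorem FFs.compl {X : Type} [TopologicalSpace X] {A : Set X} (h : FFs Aᶜ) : FGd A := by
  obtain ⟨Z, h1, h2⟩ := h
  refine ⟨fun n => (Z n)ᶜ, fun n => ?_, by rw [← compl_iUnion, ← h2, compl_compl]⟩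
  obtain ⟨f, hf, he⟩ := h1 n
  refine ⟨f, hf, ?_⟩
  ext x
  simp [he, pos_iff_ne_zero, unitInterval.le_one']

/-- free ultrafilters on the reals -/
abbrev U : Type := {u : Ultrafilter ℝ // (u : Filter ℝ) ≤ cofinite}

inductive X : Type
  | a : ℝ → X
  | b : U → ℕ → X
  | c : ℝ → U → ℕ → ℕ → X

instance : TopologicalSpace X where
  IsOpen O := (∀ h, X.a h ∈ O → ∀ᶠ n in atTop, ∀ u j, X.c h u n j ∈ O) ∧
    ∀ u m, X.b u m ∈ O → ∀ᶠ p : ℝ × ℕ in (u.1 : Filter ℝ) ×ˢ atTop, X.c p.1 u m p.2 ∈ O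
  isOpen_univ := ⟨fun _ _ => Eventually.of_forall fun _ _ _ => trivial,
    fun _ _ _ => Eventually.of_forall fun _ => trivial⟩
  isOpen_inter _ _ hs ht := ⟨fun h hh => ((hs.1 h hh.1).and (ht.1 h hh.2)).mono
    fun _ hn u j => ⟨hn.1 u j, hn.2 u j⟩, fun u m hh => (hs.2 u m hh.1).and (ht.2 u m hh.2)⟩
  isOpen_sUnion _ hs := ⟨fun h ⟨t, ht, hh⟩ => ((hs t ht).1 h hh).mono
    fun _ hn u j => ⟨t, ht, hn u j⟩, fun u m ⟨t, ht, hh⟩ => ((hs t ht).2 u m hh).mono
    fun _ hn => ⟨t, ht, hn⟩⟩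

theorem clopen {S : Set X} (h1 : ∀ h, ∀ᶠ n in atTop, ∀ u j, (X.c h u n j ∈ S ↔ X.a h ∈ S))
    (h2 : ∀ u m, ∀ᶠ p : ℝ × ℕ in (u.1 : Filter ℝ) ×ˢ atTop, (X.c p.1 u m p.2 ∈ S ↔ X.b u m ∈ S)) :
    IsClopen S :=
  ⟨⟨⟨fun h hh => (h1 h).mono fun _ hn u j hc => hh ((hn u j).1 hc),
    fun u m hh => (h2 u m).mono fun _ hn hc => hh (hn.1 hc)⟩⟩,
    ⟨fun h hh => (h1 h).mono fun _ hn u j => (hn u j).2 hh,
    fun u m hh => (h2 u m).mono fun _ hn => hn.2 hh⟩⟩

theorem ne1 (m : ℕ) : ∀ᶠ n in atTop, n ≠ m := eventually_ne_atTop m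

theorem ne2 (u : U) (j : ℕ) : ∀ᶠ p : ℝ × ℕ in (u.1 : Filter ℝ) ×ˢ atTop, p.2 ≠ j :=
  (eventually_ne_atTop j).prod_inr _

theorem ne3 (u : U) (h : ℝ) : ∀ᶠ p : ℝ × ℕ in (u.1 : Filter ℝ) ×ˢ atTop, p.1 ≠ h :=
  Eventually.prod_inl (u.2 (eventually_cofinite_ne h)) _

/-- subsets of one layer of isolated points are clopen -/
theorem clopen_c (S : Set X) (m j : ℕ) : IsClopen (S ∩ {x | ∃ h u, x = X.c h u m j}) :=
  clopen (fun h => (ne1 m).mono fun n hn u i => by simp [hn])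
    fun u n => (ne2 u j).mono fun p hp => by simp [hp]

theorem basis {x : X} {O : Set X} (hx : x ∈ O) (hO : IsOpen O) :
    ∃ C, IsClopen C ∧ x ∈ C ∧ C ⊆ O := by
  rcases x with h | ⟨u, m⟩ | ⟨h, u, m, j⟩
  · refine ⟨O ∩ {x | x = X.a h ∨ ∃ u n j, x = X.c h u n j}, clopen (fun h' => ?_)
      fun u n => (ne3 u h).mono fun p hp => by simp [hp], ⟨hx, Or.inl rfl⟩, inter_subset_left⟩
    by_cases e : h' = h
    · subst e
      exact (hO.1 _ hx).mono fun n hn u j => by simp [hn, hx, -Subtype.exists]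
    · exact Eventually.of_forall fun n u j => by simp [e]
  · refine ⟨O ∩ {x | x = X.b u m ∨ ∃ h j, x = X.c h u m j}, clopen
      (fun h => (ne1 m).mono fun n hn u i => by simp [hn]) fun u' m' => ?_,
      ⟨hx, Or.inl rfl⟩, inter_subset_left⟩
    by_cases e : u' = u ∧ m' = m
    · obtain ⟨rfl, rfl⟩ := e
      exact (hO.2 _ _ hx).mono fun p hp => by simp [hp, hx]
    · exact Eventually.of_forall fun p => by simp [e]
  · exact ⟨_, clopen_c O m j, ⟨hx, h, u, rfl⟩, inter_subset_left⟩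

theorem creg : CompletelyRegularSpace X :=
  CompletelyRegularSpace.of_isTopologicalBasis_clopens
    (TopologicalSpace.isTopologicalBasis_of_isOpen_of_nhds (fun _ h => h.isOpen)
      fun _ _ hx hO => by
        obtain ⟨C, h1, h2, h3⟩ := basis hx hO
        exact ⟨C, h1, h2, h3⟩)

theorem t1 : T1Space X := by
  refine ⟨fun x => ⟨⟨fun h _ => ?_, fun u m _ => ?_⟩⟩⟩
  · rcases x with h | ⟨u, m⟩ | ⟨h, u, m, j⟩
    · exact Eventually.of_forall fun _ _ _ => by simp
    · exact Eventually.of_forall fun _ _ _ => by simp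
    · exact (ne1 m).mono fun n hn _ _ => by simp [hn]
  · rcases x with h | ⟨u, m⟩ | ⟨h, u, m, j⟩
    · exact Eventually.of_forall fun _ => by simp
    · exact Eventually.of_forall fun _ => by simp
    · exact (ne2 _ j).mono fun p hp => by simp [hp]

theorem fa (S : Set X) : FClosed (S ∩ range X.a) := by
  let C : ℕ → Set X := fun k => {x | match x with
    | X.a h => X.a h ∈ S
    | X.b u m => {h | X.a h ∈ S} ∈ u.1 ∧ m ≠ k
    | X.c h _ m _ => X.a h ∈ S ∧ m ≠ k}
  have : S ∩ range X.a = ⋂ k, C k := by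
    ext x
    rcases x with h | ⟨u, m⟩ | ⟨h, u, m, j⟩ <;> simp [C]
    all_goals exact ⟨m, fun _ => rfl⟩
  rw [this]
  refine zs C fun k => clopen (fun h => (ne1 k).mono fun n hn u j => by simp [C, hn])
    fun u m => Eventually.prod_inl (p := fun h => (X.a h ∈ S ∧ m ≠ k) ↔
      ({h | X.a h ∈ S} ∈ u.1 ∧ m ≠ k)) ?_ _
  by_cases e : {h | X.a h ∈ S} ∈ u.1
  · exact Eventually.mono e fun h hh => by simp [e, hh]
  · exact Eventually.mono (Ultrafilter.compl_mem_iff_notMem.2 e) fun h hh => by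
      have : X.a h ∉ S := hh
      simp [e, this]

theorem fb (S : Set X) (m : ℕ) : FClosed (S ∩ {x | ∃ u, x = X.b u m}) := by
  let C : ℕ → Set X := fun k => {x | match x with
    | X.a _ => False
    | X.b u n => X.b u n ∈ S ∧ n = m
    | X.c _ u n j => (X.b u n ∈ S ∧ n = m) ∧ j ≠ k}
  have : S ∩ {x | ∃ u, x = X.b u m} = ⋂ k, C k := by
    ext x
    rcases x with h | ⟨u, n⟩ | ⟨h, u, n, j⟩ <;> simp [C, -Subtype.exists]
    exact ⟨j, fun _ _ => rfl⟩
  rw [this]
  exact zs C fun k => clopen (fun h => (ne1 m).mono fun n hn u j => by simp [C, hn])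
    fun u n => (ne2 u k).mono fun p hp => by simp [C, hp]

theorem all_ffs (S : Set X) : FFs S := by
  let Z : Option (ℕ × Option ℕ) → Set X := fun i => match i with
    | none => S ∩ range X.a
    | some (m, none) => S ∩ {x | ∃ u, x = X.b u m}
    | some (m, some j) => S ∩ {x | ∃ h u, x = X.c h u m j}
  have : S = ⋃ i, Z i := by
    refine Subset.antisymm (fun x hx => ?_) (iUnion_subset fun i => ?_)
    · rcases x with h | ⟨u, m⟩ | ⟨h, u, m, j⟩
      · exact mem_iUnion.2 ⟨none, hx, h, rfl⟩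
      · exact mem_iUnion.2 ⟨some (m, none), hx, u, rfl⟩
      · exact mem_iUnion.2 ⟨some (m, some j), hx, h, u, rfl⟩
    · rcases i with _ | ⟨m, _ | j⟩ <;> exact inter_subset_left
  rw [this]
  refine ffs Z fun i => ?_
  rcases i with _ | ⟨m, _ | j⟩
  · exact fa S
  · exact fb S m
  · simpa only [iInter_const] using zs (fun _ => _) fun _ => clopen_c S m j

theorem not_normal : ¬ NormalSpace X := by
  intro hN
  obtain ⟨O, O', hO, hO', h1, h2, h3⟩ := hN.normal (range X.a) {x | ∃ u m, x = X.b u m}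
    ⟨⟨fun h hh => Eventually.of_forall fun _ _ _ => by simp,
      fun _ _ _ => Eventually.of_forall fun _ => by simp⟩⟩
    ⟨⟨fun h hh => Eventually.of_forall fun _ _ _ => by simp,
      fun _ _ _ => Eventually.of_forall fun _ => by simp⟩⟩
    (disjoint_left.2 (by rintro _ ⟨h, rfl⟩; simp))
  choose m hm using fun h => eventually_atTop.1 (hO.1 h (h1 ⟨h, rfl⟩))
  obtain ⟨k, hk⟩ : ∃ k, {h | m h = k}.Infinite := by
    by_contra hc
    push Not at hc
    refine not_countable_univ (α := ℝ) ((countable_iUnion fun k => (hc k).countable).mono ?_)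
    exact fun h _ => mem_iUnion.2 ⟨m h, rfl⟩
  have := hk.cofinite_inf_principal_neBot
  have hu := Ultrafilter.of_le (cofinite ⊓ 𝓟 {h | m h = k})
  let u : U := ⟨Ultrafilter.of (cofinite ⊓ 𝓟 {h | m h = k}), hu.trans inf_le_left⟩
  have h4 : ∀ᶠ p : ℝ × ℕ in (u.1 : Filter ℝ) ×ˢ atTop, m p.1 = k :=
    Eventually.prod_inl (p := fun h => m h = k) (le_principal_iff.1 (hu.trans inf_le_right)) _
  obtain ⟨p, hp, hp'⟩ := ((hO'.2 u k (h2 ⟨u, k, rfl⟩)).and h4).exists
  exact disjoint_left.1 h3 (hm p.1 k hp'.le u p.2) hp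

theorem result : ∃ (X : Type) (_ : TopologicalSpace X), T1Space X ∧ CompletelyRegularSpace X ∧
    ¬ NormalSpace X ∧ ¬ PerfNormal X ∧ (∀ A : Set X, FFs A ∧ FGd A) ∧ ∀ E : Set X, OneEmb E :=
  ⟨X, inferInstance, t1, creg, not_normal, fun h => not_normal h.1,
    fun A => ⟨all_ffs A, (all_ffs _).compl⟩, fun _ =>
    ⟨fun A _ => ⟨Subtype.val '' A, all_ffs _, (preimage_image_eq A Subtype.val_injective).symm⟩,
     fun A _ => ⟨Subtype.val '' A, (all_ffs _).compl,
      (preimage_image_eq A Subtype.val_injective).symm⟩⟩⟩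

end Pool.Agent.Results.MP_493890_gt.Yes
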